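import Mathlib
import Pool.Agent.P.MP_84759c_al.IS.Final

set_option autoImplicit false

open Pool.Agent.P.MP_84759c_al.IR

/-- An infinite independent system of identities in four variables that hold in all nilpotent
lattice-ordered groups, separated by centre-by-metabelian totally ordered groups of which all but
finitely many satisfy any given identity of the nilpotent centre-by-metabelian ordered groups. -/
theorem Pool.Agent.Results.MP_84759c_al.IndependentSystem.result :
    ∃ (G : ℕ → Type) (_ : ∀ n, Group (G n)) (_ : ∀ n, LinearOrder (G n))
      (s t : ℕ → Term (Fin 4)),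
      (∀ n, MulLeftMono (G n) ∧ MulRightMono (G n) ∧
        derivedSeries (G n) 2 ≤ Subgroup.center (G n)) ∧
      (∀ (n : ℕ) (H : Type) [Group H] [Lattice H] [MulLeftMono H] [MulRightMono H],
        Group.IsNilpotent H → Holds H (s n) (t n)) ∧
      (∀ m n, Holds (G n) (s m) (t m) ↔ m ≠ n) ∧
      ∀ (k : ℕ) (u w : Term (Fin k)),
        (∀ (H : Type) [Group H] [LinearOrder H] [MulLeftMono H] [MulRightMono H],
          Group.IsNilpotent H → derivedSeries H 2 ≤ Subgroup.center H → Holds H u w) →
        {n | ¬ Holds (G n) u w}.Finite :=
  Pool.Agent.P.MP_84759c_al.IS.independent_system
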