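import Mathlib
import Pool.Agent.P.MP_84759c_al.IR.Form

set_option autoImplicit false

open Pool.Agent.P.MP_84759c_al.IR

/-- The variety generated by the nilpotent lattice-ordered groups has infinite axiomatic rank, and
so has every variety between it and the one generated by the nilpotent centre-by-metabelian
totally ordered groups. -/
theorem Pool.Agent.Results.MP_84759c_al.InfiniteRank.result (k : ℕ) :
    ∃ (G : Type) (_ : Group G) (_ : LinearOrder G), MulLeftMono G ∧ MulRightMono G ∧
      derivedSeries G 2 ≤ Subgroup.center G ∧
      (∀ s t : Term (Fin k),
        (∀ (H : Type) [Group H] [LinearOrder H] [MulLeftMono H] [MulRightMono H],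
          Group.IsNilpotent H → derivedSeries H 2 ≤ Subgroup.center H → Holds H s t) →
        Holds G s t) ∧
      ∃ s t : Term ℕ,
        (∀ (H : Type) [Group H] [Lattice H] [MulLeftMono H] [MulRightMono H],
          Group.IsNilpotent H → Holds H s t) ∧ ¬ Holds G s t :=
  infinite_rank k
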